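import Pool.Agent.H76.SF.Stm

set_option autoImplicit false

namespace H60.SF

open Finset Classical Pool.Agent.Results.MP_705b7e_co.StarForestBounds H76.SF

theorem con_aux {N m : ℕ} (s : ℕ → ℕ) (R : SimpleGraph (Fin N)) (ce : Fin m → Fin N)
    (LF : Fin m → Finset (Fin N)) (h1 : Function.Injective ce)
    (h2 : ∀ i, ∀ x ∈ LF i, R.Adj (ce i) x) (h3 : ∀ i j, ce i ∉ LF j)
    (h4 : ∀ i j, i ≠ j → Disjoint (LF i) (LF j)) (h5 : ∀ i : Fin m, s i ≤ (LF i).card) :
    (starForest m s).IsContained R := by
  have hex : ∀ i : Fin m, Nonempty (Fin (s i) ↪ {w // w ∈ LF i}) := by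
    intro i
    apply Function.Embedding.nonempty_of_card_le
    rw [Fintype.card_fin, Fintype.card_coe]
    exact h5 i
  let e := fun i => Classical.choice (hex i)
  let φ : (Σ i : Fin m, Option (Fin (s i))) → Fin N := fun x =>
    match x with
    | ⟨i, none⟩ => ce i
    | ⟨i, some a⟩ => (e i a : Fin N)
  have hlab : ∀ (i : Fin m) (a : Fin (s i)), (e i a : Fin N) ∈ LF i := fun i a => (e i a).2
  refine ⟨⟨⟨φ, ?_⟩, ?_⟩⟩
  · rintro ⟨i, a⟩ ⟨j, b⟩ ⟨g1, g2⟩
    simp only at g1
    subst g1
    rcases a with _ | a
    · rcases b with _ | b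
      · simp at g2
      · exact h2 i _ (hlab i b)
    · rcases b with _ | b
      · exact (h2 i _ (hlab i a)).symm
      · simp at g2
  · rintro ⟨i, a⟩ ⟨j, b⟩ hab
    change φ ⟨i, a⟩ = φ ⟨j, b⟩ at hab
    rcases a with _ | a
    · rcases b with _ | b
      · have : i = j := h1 hab
        subst this
        rfl
      · exfalso
        have g3 : ce i = (e j b : Fin N) := hab
        exact h3 i j (by rw [g3]; exact hlab j b)
    · rcases b with _ | b
      · exfalso
        have g3 : (e i a : Fin N) = ce j := hab
        exact h3 j i (by rw [← g3]; exact hlab i a)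
      · have g3 : (e i a : Fin N) = (e j b : Fin N) := hab
        have : i = j := by
          by_contra hne
          exact Finset.disjoint_left.1 (h4 i j hne) (hlab i a) (by rw [g3]; exact hlab j b)
        subst this
        have g4 : e i a = e i b := Subtype.ext g3
        rw [(e i).injective g4]

theorem t_CON : S_CON := by
  intro N k s hk hs R h
  obtain ⟨m, rfl⟩ : ∃ m, k = m + 1 := ⟨k - 1, by omega⟩
  rw [Nat.add_sub_cancel] at h
  obtain ⟨c, L, u, A, hL, hcL, hu, huc, hA, hAA⟩ := h
  refine con_aux s R (Fin.cons c u) (Fin.cons L A) ?_ ?_ ?_ ?_ ?_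
  · rw [Fin.cons_injective_iff]
    refine ⟨?_, hu⟩
    rintro ⟨i, hi⟩
    exact (huc i).1 hi
  · intro i
    refine Fin.cases ?_ ?_ i
    · simpa using hcL
    · intro i
      simpa using (hA i).2.1
  · intro i j
    refine Fin.cases ?_ ?_ i
    · refine Fin.cases ?_ ?_ j
      · simp only [Fin.cons_zero]
        intro hc
        exact (hcL c hc).ne rfl
      · intro j
        simpa using (hA j).2.2.1
    · intro i
      refine Fin.cases ?_ ?_ j
      · simpa using (huc i).2
      · intro j
        simpa using (hA j).2.2.2.2 i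
  · intro i j
    refine Fin.cases ?_ ?_ i
    · refine Fin.cases ?_ ?_ j
      · intro h; exact absurd rfl h
      · intro j _
        simpa using (hA j).2.2.2.1.symm
    · intro i
      refine Fin.cases ?_ ?_ j
      · intro _
        simpa using (hA i).2.2.2.1
      · intro j hij
        simpa using hAA i j (fun h => hij (by rw [h]))
  · intro i
    refine Fin.cases ?_ ?_ i
    · simp [hL]
    · intro i
      simp only [Fin.cons_succ, (hA i).1, Fin.val_succ]
      exact hs 1 (i + 1) (by omega) (by have := i.2; omega)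

end H60.SF
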